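import Pool.Agent.Q230.AS.Main

/-!
# MP_c99d13_lc: arc-disjoint antistrong and strong spanning subdigraphs

Deciding whether a digraph has two arc-disjoint spanning subdigraphs, one antistrong and the other
one strongly connected, is NP-hard.
-/

set_option autoImplicit false

namespace Pool.Agent.Results.MP_c99d13_lc.NPHard

open Pool.Agent.NPC Pool.Agent.Q230.AS

theorem result : NPHardP Problem := hard

end Pool.Agent.Results.MP_c99d13_lc.NPHard
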